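import Mathlib
import Pool.Agent.H536.OC.U5b
import Pool.Agent.H536.OC.SDub

/-!
# Even numbers as sums of almost twin primes, in all progressions to power moduli

For every large even `n` there are at least `n ^ 0.97` primes `p < n` such that `p + e` is almost prime (`e` is `2` or
`-2`), `n - p` has at most three prime factors (all of them `> n ^ 0.11`) and `n - p + f` is almost prime (`f` is `2`
or `-2`). The signs can be prescribed: all `e, f` with `3 ∣ n - e - f` (a necessary condition) are possible; and the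
primes can be taken in EVERY residue class `b` modulo EVERY `q ≤ n ^ δ` for which `b`, `b + e`, `n - b`, `n - b + f` are
prime to `q` (Siegel zeros are allowed).
-/

namespace Pool.Agent.Results.MP_c6d112_nt.AlmostTwinSummands

/-- `n = p + m` with `p` prime, `p + e` a product of at most `R` primes, `m > 1` a product of at most three primes larger
than `n ^ 0.11` and `m + f` a product of at most `R` primes -/
def Rep (R n : ℕ) (e f : ℤ) (p m : ℕ) : Prop :=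
  n = p + m ∧ p.Prime ∧ 0 < (p : ℤ) + e ∧ ArithmeticFunction.cardFactors ((p : ℤ) + e).toNat ≤ R ∧
  1 < m ∧ ArithmeticFunction.cardFactors m ≤ 3 ∧ (∀ l : ℕ, l.Prime → l ∣ m → (n : ℝ) ^ (11 / 100 : ℝ) < l) ∧
  0 < (m : ℤ) + f ∧ ArithmeticFunction.cardFactors ((m : ℤ) + f).toNat ≤ R

theorem result : ∃ (δ : ℝ) (R X0 : ℕ), 0 < δ ∧ ∀ n : ℕ, X0 ≤ n → Even n →
    (∃ e f : ℤ, (e = 2 ∨ e = -2) ∧ (f = 2 ∨ f = -2) ∧ (3 : ℤ) ∣ n - (e + f)) ∧
    ∀ e f : ℤ, (e = 2 ∨ e = -2) → (f = 2 ∨ f = -2) → (3 : ℤ) ∣ n - (e + f) → ∀ q b : ℕ, 1 ≤ q →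
    (q : ℝ) ≤ (n : ℝ) ^ δ → (∀ l : ℕ, l.Prime → l ∣ q → ¬ (l : ℤ) ∣ b * (b + e) * (n - b) * (n - b + f)) →
    ∃ S : Finset ℕ, (n : ℝ) ^ (97 / 100 : ℝ) ≤ S.card ∧ ∀ p ∈ S, p ≡ b [MOD q] ∧ ∃ m, Rep R n e f p m := by
  obtain ⟨δ, R, X0, hδ, h⟩ := Pool.Agent.H536.OC.dub Pool.Agent.H536.OC.SPall
  refine ⟨δ, R, X0, hδ, fun n hn hev => ⟨?_, ?_⟩⟩
  · have h3 : n % 3 = 0 ∨ n % 3 = 1 ∨ n % 3 = 2 := by omega
    rcases h3 with h3 | h3 | h3
    · exact ⟨2, -2, Or.inl rfl, Or.inr rfl, by omega⟩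
    · exact ⟨2, 2, Or.inl rfl, Or.inl rfl, by omega⟩
    · exact ⟨-2, -2, Or.inr rfl, Or.inr rfl, by omega⟩
  · intro e f he hf h3 q b hq hqn hl
    obtain ⟨S, hS, hS2⟩ := h n hn hev e f he hf h3 q b hq hqn hl
    refine ⟨S, hS, fun p hp => ?_⟩
    obtain ⟨g1, g2, g3, g4, g5, g6, g7, g8, g9, g10⟩ := hS2 p hp
    refine ⟨g3, n - p, ?_, g1, g4, ?_, g6, g7, g8, ?_, ?_⟩
    · omega
    · have e1 : ((p : ℤ) + e).toNat = ((p : ℤ) + e).natAbs := by omega
      rw [e1]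
      exact g5
    · have e1 : ((n - p : ℕ) : ℤ) = (n : ℤ) - p := by omega
      rw [e1]
      exact g9
    · have e1 : (((n - p : ℕ) : ℤ) + f).toNat = ((n : ℤ) - p + f).natAbs := by omega
      rw [e1]
      exact g10

end Pool.Agent.Results.MP_c6d112_nt.AlmostTwinSummands
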