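import Pool.Agent.H530.HzP

/-!
# Almost all even numbers are sums of two almost prime twins with prescribed parities

Dubner's question asks for `N = p + q` with twin primes `p`, `q`, for all even `N > 4208`. Let `H`, `H'` be admissible
`k`-tuples of integers of any size (for twins `k = 2` and `(0, 2)` or `(0, -2)`). For `N ≤ X` let `reps` be the
set of the `n < N` for which none of the `2 k` numbers `n + H i`, `N - n + H' i` has a prime factor `≤ y`, where
`y ^ K ≤ X`. Put `δ = 2 ^ (-⌊K / A⌋)`.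

* For every `N` without local obstruction between `δ X` and `X` the number of these `n` is at least a constant
  times the expected number.
* For all but `δ X` of the `N ≤ X` without local obstruction the parities of the numbers of prime factors of
  `n + a` and of `N - n + b` are independent: each of the four patterns occurs for a quarter of the `n`, up to `δ`.

Every even `N` is without local obstruction for twins, with suitable signs.
-/

set_option autoImplicit false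

namespace Pool.Agent.Results.MP_c6d112_nt.AlmostTwinsWithParities

open Finset

open Classical in
/-- the `n`, `1 ≤ n ≤ X`, for which none of the numbers `n + H i` has a prime factor up to `y` -/
noncomputable def rough {k : ℕ} (H : Fin k → ℤ) (y X : ℕ) : Finset ℕ :=
  (Icc 1 X).filter (fun n => ∀ p : ℕ, p.Prime → p ≤ y → ∀ i, ¬ (p : ℤ) ∣ n + H i)

/-- no prime divides the product of the `n + H i` for all integers `n` -/
def Admissible {k : ℕ} (H : Fin k → ℤ) : Prop := ∀ p : ℕ, p.Prime → ∃ n : ℤ, ∀ i, ¬ (p : ℤ) ∣ n + H i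

/-- no prime divides the product of the `n + H i` and the `N - n + H' i` for all integers `n` -/
def Soluble {k : ℕ} (H H' : Fin k → ℤ) (N : ℕ) : Prop :=
  ∀ p : ℕ, p.Prime → ∃ n : ℤ, (∀ i, ¬ (p : ℤ) ∣ n + H i) ∧ ∀ i, ¬ (p : ℤ) ∣ N - n + H' i

open Classical in
/-- the `n`, `1 ≤ n < N`, for which none of the `2 k` numbers `n + H i`, `N - n + H' i` has a prime factor up to `y` -/
noncomputable def reps {k : ℕ} (H H' : Fin k → ℤ) (N y : ℕ) : Finset ℕ :=
  (Ico 1 N).filter (fun n : ℕ => ∀ p : ℕ, p.Prime → p ≤ y →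
    ∀ i, ¬ (p : ℤ) ∣ n + H i ∧ ¬ (p : ℤ) ∣ (N : ℤ) - n + H' i)

/-- `m` is not zero and its number of prime factors is odd (`s` true), or even (`s` false) -/
def Par (s : Bool) (m : ℤ) : Prop := m ≠ 0 ∧ (Odd (ArithmeticFunction.cardFactors m.natAbs) ↔ s = true)

open Classical in
/-- the representations at which `n + a` and `N - n + b` have the parities `s` and `t` -/
noncomputable def pattern {k : ℕ} (H H' : Fin k → ℤ) (N y : ℕ) (a b : ℤ) (s t : Bool) : Finset ℕ :=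
  (reps H H' N y).filter (fun n : ℕ => Par s ((n : ℤ) + a) ∧ Par t ((N : ℤ) - n + b))

open Pool.Agent.H530.Ha Pool.Agent.H530.Hz Pool.Agent.H373R2.T7 in
lemma rough_eq {k : ℕ} (H : Fin k → ℤ) (y X : ℕ) :
    rough H y X = Pool.Agent.H530.Ha.RQ (QZ (fun _ => 1) H) X y := by
  classical
  ext n
  rw [mem_RQ]
  unfold rough
  rw [mem_filter, mem_Icc]
  apply and_congr Iff.rfl
  constructor
  · rintro h p hp ⟨j, hj⟩
    rw [one_mul] at hj
    exact h p (mem_pz.1 hp).2 (mem_pz.1 hp).1 j hj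
  · intro h p hp hpy j hj
    refine h p (mem_pz.2 ⟨hpy, hp⟩) ⟨j, ?_⟩
    rw [one_mul]
    exact hj

open Pool.Agent.H530.Ha in
lemma adz {k : ℕ} {H : Fin k → ℤ} (h : Admissible H) : AdZ (fun _ => 1) H := by
  intro p hp
  obtain ⟨n, hn⟩ := h p hp
  refine ⟨n, fun j => ?_⟩
  rw [one_mul]
  exact hn j

lemma reps_iff {k : ℕ} {H H' : Fin k → ℤ} {N y X n : ℕ} (hN : N ≤ X) :
    n ∈ reps H H' N y ↔ n ∈ rough H y X ∧ n ≤ N ∧ N - n ∈ rough H' y X := by
  classical
  unfold reps rough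
  rw [mem_filter, mem_filter, mem_filter, mem_Ico, mem_Icc, mem_Icc]
  constructor
  · rintro ⟨h1, h2⟩
    refine ⟨⟨by omega, fun p hp hpy i => (h2 p hp hpy i).1⟩, by omega, by omega, fun p hp hpy i => ?_⟩
    have := (h2 p hp hpy i).2
    rwa [Nat.cast_sub (by omega)]
  · rintro ⟨⟨h1, h2⟩, h5, h3, h4⟩
    refine ⟨by omega, fun p hp hpy i => ⟨h2 p hp hpy i, ?_⟩⟩
    have := h4 p hp hpy i
    rwa [Nat.cast_sub (by omega)] at this

open Classical in
lemma filter_card {k : ℕ} {H H' : Fin k → ℤ} {N y X : ℕ} (hN : N ≤ X) (P : ℕ → ℕ → Prop) :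
    ((rough H y X).filter (fun n => n ≤ N ∧ N - n ∈ rough H' y X ∧ P n (N - n))).card =
      ((reps H H' N y).filter (fun n => P n (N - n))).card := by
  congr 1
  ext n
  rw [mem_filter, mem_filter, reps_iff hN]
  exact ⟨fun h => ⟨⟨h.1, h.2.1, h.2.2.1⟩, h.2.2.2⟩, fun h => ⟨h.1.1, h.1.2.1, h.1.2.2, h.2⟩⟩

lemma res {p : ℕ} (hp : 0 < p) (n : ℤ) : ∃ m : ℕ, ∀ c : ℤ, (p : ℤ) ∣ (m : ℤ) + c ↔ (p : ℤ) ∣ n + c := by
  have hp0 : (0 : ℤ) < p := by exact_mod_cast hp
  have hs : (((n % p).toNat : ℕ) : ℤ) = n % p := Int.toNat_of_nonneg (Int.emod_nonneg _ hp0.ne')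
  refine ⟨(n % p).toNat, fun c => ?_⟩
  rw [hs]
  have h2 : n + c ≡ n % p + c [ZMOD p] := (Int.mod_modEq n p).symm.add_right _
  rw [← Int.modEq_zero_iff_dvd, ← Int.modEq_zero_iff_dvd]
  exact ⟨fun h => h2.trans h, fun h => h2.symm.trans h⟩

open Pool.Agent.H530.Ha Pool.Agent.H530.Hz Pool.Agent.H373R2.T7 in
lemma loc2 {k : ℕ} {H H' : Fin k → ℤ} {N : ℕ} (h : Soluble H H' N) :
    Loc2 k (QZ (fun _ => 1) H) (QZ (fun _ => 1) H') N := by
  intro p hp
  obtain ⟨n, hn1, hn2⟩ := h p (mem_pz.1 hp).2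
  obtain ⟨m1, h1⟩ := res (mem_pz.1 hp).2.pos n
  obtain ⟨m2, h2⟩ := res (mem_pz.1 hp).2.pos ((N : ℤ) - n)
  refine ⟨m1, m2, ?_, ?_, ?_⟩
  · rw [← Int.natCast_modEq_iff, Nat.cast_add]
    have e1 := (h1 (-n)).2 (by rw [add_neg_cancel]; exact dvd_zero _)
    have e2 := (h2 (-((N : ℤ) - n))).2 (by rw [add_neg_cancel]; exact dvd_zero _)
    apply Int.ModEq.symm
    rw [Int.modEq_iff_dvd]
    have e3 := dvd_add e1 e2
    have e4 : (m1 : ℤ) + -n + ((m2 : ℤ) + -((N : ℤ) - n)) = m1 + m2 - N := by ring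
    rwa [e4] at e3
  · rintro ⟨j, hj⟩
    rw [one_mul] at hj
    exact hn1 j ((h1 _).1 hj)
  · rintro ⟨j, hj⟩
    rw [one_mul] at hj
    exact hn2 j ((h2 _).1 hj)

open Classical in
/-- the theorem for general tuples -/
theorem general (k : ℕ) (hk : 1 ≤ k) : ∃ c : ℝ, 0 < c ∧ ∃ A : ℕ, 1 ≤ A ∧ ∀ K : ℕ, A ≤ K → ∀ B : ℕ, ∃ X₀ y₀ : ℕ,
    ∀ X y : ℕ, X₀ ≤ X → y₀ ≤ y → y ^ K ≤ X → ∀ H H' : Fin k → ℤ, Admissible H → Admissible H' →
      c * (X / Real.log X ^ k) ≤ (rough H y X).card ∧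
      (∀ N : ℕ, N ≤ X → (1 / 2 : ℝ) ^ (K / A) * X ≤ N → Soluble H H' N →
        c * ((N : ℝ) / X) * (((rough H y X).card : ℝ) * (rough H' y X).card / X) ≤ (reps H H' N y).card) ∧
      ∀ a b : ℤ, |(a : ℝ)| ≤ X * Real.log X ^ B → |(b : ℝ)| ≤ X * Real.log X ^ B →
        (((Icc 1 X).filter (fun N : ℕ => Soluble H H' N ∧ ∃ s t : Bool,
          (1 / 2 : ℝ) ^ (K / A) * (reps H H' N y).card <
            |4 * ((pattern H H' N y a b s t).card : ℝ) - (reps H H' N y).card|)).card : ℝ) ≤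
          (1 / 2 : ℝ) ^ (K / A) * X := by
  obtain ⟨c1, hc1, H1⟩ := Pool.Agent.H530.Ha.all_F k hk
  obtain ⟨K1, hK1, H1⟩ := H1 1 one_pos
  obtain ⟨c2, hc2, A2, hA2, H2⟩ := Pool.Agent.H530.Hz.F2s k hk
  refine ⟨min c1 c2, lt_min hc1 hc2, A2 + K1, by omega, fun K hK B => ?_⟩
  obtain ⟨X1, y1, H1⟩ := H1 B
  obtain ⟨X2, y2, H2⟩ := H2 K (by omega) B
  refine ⟨X1 + X2 + 1, y1 + y2 + 1, ?_⟩
  intro X y hX hy hyX H H' hH hH'
  have sH := Pool.Agent.H530.Ha.sv_QZ (adz hH)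
  have sH' := Pool.Agent.H530.Ha.sv_QZ (adz hH')
  have hXr : (1 : ℝ) ≤ X := by exact_mod_cast (by omega : 1 ≤ X)
  have hmono := Pool.Agent.H530.Hz.half_mono (K := K) hA2 (show A2 ≤ A2 + K1 by omega)
  obtain ⟨δ', hδ'⟩ : ∃ δ' : ℝ, δ' = (1 / 2 : ℝ) ^ (K / A2) := ⟨_, rfl⟩
  obtain ⟨δ, hδ⟩ : ∃ δ : ℝ, δ = (1 / 2 : ℝ) ^ (K / (A2 + K1)) := ⟨_, rfl⟩
  have r1 := (H1 _ sH X y (by omega) (by omega) ((Nat.pow_le_pow_right (by omega) (by omega)).trans hyX)).1
  have r2 := H2 _ _ sH sH' X y (by omega) (by omega) hyX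
  rw [← rough_eq] at r1 r2
  rw [← rough_eq] at r2
  rw [← hδ', ← hδ] at hmono
  rw [← hδ'] at r2
  rw [← hδ]
  have hrep : ∀ N : ℕ, N ≤ X → ∀ P : ℕ → ℕ → Prop,
      ((Pool.Agent.H530.Hz.rep2 (rough H y X) (rough H' y X) 1 1 N).filter (fun t => P t.1 t.2)).card =
      ((reps H H' N y).filter (fun n => P n (N - n))).card := by
    intro N hN P
    rw [Pool.Agent.H530.Hz.rep2_sum]
    exact filter_card hN P
  have hrep0 : ∀ N : ℕ, N ≤ X → (Pool.Agent.H530.Hz.rep2 (rough H y X) (rough H' y X) 1 1 N).card =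
      (reps H H' N y).card := by
    intro N hN
    have := hrep N hN (fun _ _ => True)
    rwa [filter_true, filter_true] at this
  refine ⟨?_, ?_, ?_⟩
  · refine le_trans ?_ r1
    apply mul_le_mul_of_nonneg_right (min_le_left _ _)
    have : 0 ≤ Real.log (X : ℝ) := Real.log_natCast_nonneg _
    positivity
  · intro N hN hNX hsol
    have h := r2.1 N hN (by
      refine le_trans ?_ hNX
      exact mul_le_mul_of_nonneg_right hmono (by linarith)) (loc2 hsol)
    rw [hrep0 N hN] at h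
    refine le_trans ?_ h
    apply mul_le_mul_of_nonneg_right _ (by positivity)
    exact mul_le_mul_of_nonneg_right (min_le_right _ _) (by positivity)
  · intro a b ha hb
    have h := r2.2 a b ha hb
    refine le_trans ?_ (h.trans (mul_le_mul_of_nonneg_right hmono (by linarith)))
    have hsub : (Icc 1 X).filter (fun N : ℕ => Soluble H H' N ∧ ∃ s t : Bool,
          δ * (reps H H' N y).card <
            |4 * ((pattern H H' N y a b s t).card : ℝ) - (reps H H' N y).card|) ⊆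
        (Icc 1 X).filter (fun N : ℕ => Pool.Agent.H530.Hz.Loc2 k (Pool.Agent.H530.Ha.QZ (fun _ => 1) H)
          (Pool.Agent.H530.Ha.QZ (fun _ => 1) H') N ∧ ∃ s1 s2 : ℝ, (s1 = 1 ∨ s1 = -1) ∧ (s2 = 1 ∨ s2 = -1) ∧
          δ' * (Pool.Agent.H530.Hz.rep2 (rough H y X) (rough H' y X) 1 1 N).card <
          |4 * Pool.Agent.H530.Hz.pat2 (Pool.Agent.H530.Hz.rep2 (rough H y X) (rough H' y X) 1 1 N) a b s1 s2 -
            (Pool.Agent.H530.Hz.rep2 (rough H y X) (rough H' y X) 1 1 N).card|) := by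
      intro N hN
      rw [mem_filter, mem_Icc] at hN ⊢
      obtain ⟨hNX, hsol, s, t, hst⟩ := hN
      refine ⟨hNX, loc2 hsol, Pool.Agent.H530.Hz.sg s, Pool.Agent.H530.Hz.sg t,
        Pool.Agent.H530.Hz.sg_cases s, Pool.Agent.H530.Hz.sg_cases t, ?_⟩
      rw [Pool.Agent.H530.Hz.pat2_card]
      have e1 : ((Pool.Agent.H530.Hz.rep2 (rough H y X) (rough H' y X) 1 1 N).filter
          (fun u => Pool.Agent.H530.Ha.lz ((u.1 : ℤ) + a) = Pool.Agent.H530.Hz.sg s ∧
            Pool.Agent.H530.Ha.lz ((u.2 : ℤ) + b) = Pool.Agent.H530.Hz.sg t)).card =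
          ((reps H H' N y).filter (fun n : ℕ => Pool.Agent.H530.Ha.lz ((n : ℤ) + a) = Pool.Agent.H530.Hz.sg s ∧
            Pool.Agent.H530.Ha.lz (((N - n : ℕ) : ℤ) + b) = Pool.Agent.H530.Hz.sg t)).card := by
        convert hrep N hNX.2 (fun n m => Pool.Agent.H530.Ha.lz ((n : ℤ) + a) = Pool.Agent.H530.Hz.sg s ∧
          Pool.Agent.H530.Ha.lz ((m : ℤ) + b) = Pool.Agent.H530.Hz.sg t)
      have e2 : (reps H H' N y).filter (fun n : ℕ => Pool.Agent.H530.Ha.lz ((n : ℤ) + a) = Pool.Agent.H530.Hz.sg s ∧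
        Pool.Agent.H530.Ha.lz (((N - n : ℕ) : ℤ) + b) = Pool.Agent.H530.Hz.sg t) = pattern H H' N y a b s t := by
        unfold pattern
        apply filter_congr
        intro n hn
        unfold Par
        have hnN := ((reps_iff hNX.2).1 hn).2.1
        rw [Pool.Agent.H530.Hz.par_iff, Pool.Agent.H530.Hz.par_iff, Nat.cast_sub hnN]
      rw [e1, e2, hrep0 N hNX.2]
      refine lt_of_le_of_lt ?_ hst
      exact mul_le_mul_of_nonneg_right hmono (Nat.cast_nonneg _)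
    exact_mod_cast card_le_card hsub

/-- a sign -/
def sgn (s : Bool) : ℤ := if s then 1 else -1

/-- the pair `n`, `n + 2` or `n`, `n - 2` -/
def twin (s : Bool) : Fin 2 → ℤ := ![0, 2 * sgn s]

lemma small_or {p : ℕ} (hp : p.Prime) : p = 2 ∨ p = 3 ∨ 5 ≤ p := by
  have h2 := hp.two_le
  by_cases h : p = 4
  · subst h; exact absurd hp (by norm_num)
  · omega

lemma not_dvd_of_lt {p : ℕ} {m : ℤ} (hm : m ≠ 0) (h : m.natAbs < p) : ¬ (p : ℤ) ∣ m := by
  intro hd
  have := Int.le_of_dvd (Int.natCast_pos.2 (Int.natAbs_pos.2 hm)) ((Int.dvd_natAbs).2 hd)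
  omega

lemma twin_adm (s : Bool) : Admissible (twin s) := by
  intro p hp
  rcases small_or hp with rfl | rfl | h
  · refine ⟨1, fun i => ?_⟩
    fin_cases i <;> cases s <;> simp [twin, sgn] <;> omega
  · refine ⟨- sgn s, fun i => ?_⟩
    fin_cases i <;> cases s <;> simp [twin, sgn] <;> omega
  · refine ⟨sgn s, fun i => ?_⟩
    apply not_dvd_of_lt
    · fin_cases i <;> cases s <;> simp [twin, sgn]
    · fin_cases i <;> cases s <;> simp [twin, sgn] <;> omega

/-- more residue classes than obstacles -/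
lemma avoid {p m : ℕ} (hp : m < p) (c : Fin m → ℤ) : ∃ n : ℤ, ∀ i, ¬ (p : ℤ) ∣ n - c i := by
  by_contra h
  push Not at h
  have h1 : ∀ j : Fin (m + 1), ∃ i : Fin m, (p : ℤ) ∣ ((j : ℕ) : ℤ) - c i := fun j => h _
  choose f hf using h1
  obtain ⟨j1, j2, hne, he⟩ := Fintype.exists_ne_map_eq_of_card_lt f (by simp)
  have h2 := dvd_sub (hf j1) (hf j2)
  rw [he] at h2
  have e : (((j1 : ℕ) : ℤ) - c (f j2)) - (((j2 : ℕ) : ℤ) - c (f j2)) = ((j1 : ℕ) : ℤ) - ((j2 : ℕ) : ℤ) := by ring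
  rw [e] at h2
  have hj1 := j1.2
  have hj2 := j2.2
  refine not_dvd_of_lt ?_ ?_ h2
  · intro h0
    exact hne (Fin.ext (by omega))
  · omega

lemma twin_sol {N : ℕ} (hN : Even N) : ∃ s t : Bool, Soluble (twin s) (twin t) N := by
  have h3 : ∃ s t : Bool, (3 : ℤ) ∣ (N : ℤ) + sgn s + sgn t := by
    have : (N : ℤ) % 3 = 0 ∨ (N : ℤ) % 3 = 1 ∨ (N : ℤ) % 3 = 2 := by omega
    rcases this with h | h | h
    · exact ⟨true, false, by simp [sgn]; omega⟩
    · exact ⟨true, true, by simp [sgn]; omega⟩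
    · exact ⟨false, false, by simp [sgn]; omega⟩
  obtain ⟨s, t, h3⟩ := h3
  refine ⟨s, t, ?_⟩
  intro p hp
  obtain ⟨M, hM⟩ := hN
  rcases small_or hp with rfl | rfl | h
  · refine ⟨1, fun i => ?_, fun i => ?_⟩
    · fin_cases i <;> cases s <;> simp [twin, sgn] <;> omega
    · fin_cases i <;> cases t <;> simp [twin, sgn] <;> omega
  · refine ⟨- sgn s, fun i => ?_, fun i => ?_⟩
    · fin_cases i <;> cases s <;> simp [twin, sgn] <;> omega
    · fin_cases i <;> cases s <;> cases t <;> simp [twin, sgn] at h3 ⊢ <;> omega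
  · obtain ⟨n, hn⟩ := avoid (show 4 < p by omega) ![0, - (2 * sgn s), (N : ℤ), (N : ℤ) + 2 * sgn t]
    refine ⟨n, fun i => ?_, fun i => ?_⟩
    · fin_cases i
      · simpa [twin] using hn 0
      · have := hn 1
        simpa [twin, sub_neg_eq_add] using this
    · fin_cases i
      · have := hn 2
        have e : (N : ℤ) - n + twin t 0 = - (n - N) := by simp [twin]
        intro hd
        apply this
        change (p : ℤ) ∣ n - N
        rw [← dvd_neg, ← e]
        exact hd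
      · have := hn 3
        have e : (N : ℤ) - n + twin t 1 = - (n - ((N : ℤ) + 2 * sgn t)) := by simp [twin]; ring
        intro hd
        apply this
        change (p : ℤ) ∣ n - ((N : ℤ) + 2 * sgn t)
        rw [← dvd_neg, ← e]
        exact hd

open Classical in
/-- the theorem for twins -/
theorem twins : ∃ c : ℝ, 0 < c ∧ ∃ A : ℕ, 1 ≤ A ∧ ∀ K : ℕ, A ≤ K → ∀ B : ℕ, ∃ X₀ y₀ : ℕ,
    ∀ X y : ℕ, X₀ ≤ X → y₀ ≤ y → y ^ K ≤ X →
      ∀ a b : ℤ, |(a : ℝ)| ≤ X * Real.log X ^ B → |(b : ℝ)| ≤ X * Real.log X ^ B →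
        (((Icc 1 X).filter (fun N : ℕ => Even N ∧ ¬ ∃ σ τ : Bool,
          c * (N / Real.log X ^ 4) ≤ (reps (twin σ) (twin τ) N y).card ∧
          ∀ s t : Bool, |4 * ((pattern (twin σ) (twin τ) N y a b s t).card : ℝ) - (reps (twin σ) (twin τ) N y).card| ≤
            (1 / 2 : ℝ) ^ (K / A) * (reps (twin σ) (twin τ) N y).card)).card : ℝ) ≤
          5 * ((1 / 2 : ℝ) ^ (K / A) * X) := by
  obtain ⟨c, hc, A, hA, H⟩ := general 2 (by norm_num)
  refine ⟨c * (c * c), by positivity, A, hA, fun K hK B => ?_⟩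
  obtain ⟨X₀, y₀, H⟩ := H K hK B
  refine ⟨X₀ + 2, y₀, ?_⟩
  intro X y hX hy hyX a b ha hb
  obtain ⟨δ, hδ⟩ : ∃ δ : ℝ, δ = (1 / 2 : ℝ) ^ (K / A) := ⟨_, rfl⟩
  have hδ0 : 0 ≤ δ := by rw [hδ]; positivity
  have H' := fun σ τ => H X y (by omega) hy hyX (twin σ) (twin τ) (twin_adm σ) (twin_adm τ)
  rw [← hδ] at *
  have hXr : (2 : ℝ) ≤ X := by exact_mod_cast (by omega : 2 ≤ X)
  have hlog : 0 < Real.log X := Real.log_pos (by linarith)
  obtain ⟨E, hE⟩ : ∃ E : Bool → Bool → Finset ℕ, E = fun σ τ => (Icc 1 X).filter (fun N : ℕ => Soluble (twin σ) (twin τ) N ∧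
      ∃ s t : Bool, δ * (reps (twin σ) (twin τ) N y).card <
            |4 * ((pattern (twin σ) (twin τ) N y a b s t).card : ℝ) - (reps (twin σ) (twin τ) N y).card|) := ⟨_, rfl⟩
  have hEc : ∀ σ τ, ((E σ τ).card : ℝ) ≤ δ * X := by
    intro σ τ
    rw [hE]
    have := (H' σ τ).2.2 a b ha hb
    rw [← hδ] at this
    exact this
  have hsub : (Icc 1 X).filter (fun N : ℕ => Even N ∧ ¬ ∃ σ τ : Bool,
          c * (c * c) * (N / Real.log X ^ 4) ≤ (reps (twin σ) (twin τ) N y).card ∧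
          ∀ s t : Bool, |4 * ((pattern (twin σ) (twin τ) N y a b s t).card : ℝ) - (reps (twin σ) (twin τ) N y).card| ≤
            δ * (reps (twin σ) (twin τ) N y).card) ⊆
      Icc 1 ⌊δ * X⌋₊ ∪ ((E true true ∪ E true false) ∪ (E false true ∪ E false false)) := by
    intro N hN
    rw [mem_filter, mem_Icc] at hN
    obtain ⟨hNX, hev, hno⟩ := hN
    by_cases hsm : (N : ℝ) < δ * X
    · rw [mem_union, mem_Icc]
      exact Or.inl ⟨hNX.1, Nat.le_floor hsm.le⟩
    obtain ⟨σ, τ, hsol⟩ := twin_sol hev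
    have hmem : N ∈ E σ τ := by
      rw [hE, mem_filter, mem_Icc]
      refine ⟨hNX, hsol, ?_⟩
      by_contra hcon
      push Not at hcon
      refine hno ⟨σ, τ, ?_, fun s t => hcon s t⟩
      have h1 := (H' σ τ).2.1 N hNX.2 (by rw [← hδ]; exact not_lt.1 hsm) hsol
      refine le_trans ?_ h1
      have h2 := (H' σ τ).1
      have h3 := (H' τ σ).1
      have e : c * (c * c) * ((N : ℝ) / Real.log X ^ 4) =
        c * ((N : ℝ) / X) * (c * (X / Real.log X ^ 2) * (c * (X / Real.log X ^ 2)) / X) := by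
        field_simp
      rw [e]
      apply mul_le_mul_of_nonneg_left _ (by positivity)
      apply div_le_div_of_nonneg_right _ (by linarith)
      exact mul_le_mul h2 h3 (by positivity) (Nat.cast_nonneg _)
    rw [mem_union, mem_union, mem_union, mem_union]
    cases σ <;> cases τ <;> tauto
  have h1 : (((Icc 1 X).filter (fun N : ℕ => Even N ∧ ¬ ∃ σ τ : Bool,
          c * (c * c) * (N / Real.log X ^ 4) ≤ (reps (twin σ) (twin τ) N y).card ∧
          ∀ s t : Bool, |4 * ((pattern (twin σ) (twin τ) N y a b s t).card : ℝ) - (reps (twin σ) (twin τ) N y).card| ≤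
            δ * (reps (twin σ) (twin τ) N y).card)).card : ℝ) ≤
      (Icc 1 ⌊δ * X⌋₊).card + (((E true true).card + (E true false).card) +
        ((E false true).card + (E false false).card)) := by
    have := (card_le_card hsub).trans ((card_union_le _ _).trans
      (Nat.add_le_add_left ((card_union_le _ _).trans (Nat.add_le_add (card_union_le _ _) (card_union_le _ _))) _))
    exact_mod_cast this
  refine h1.trans ?_
  have h2 : ((Icc 1 ⌊δ * X⌋₊).card : ℝ) ≤ δ * X := by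
    rw [Nat.card_Icc, Nat.add_sub_cancel]
    exact Nat.floor_le (by positivity)
  have := hEc true true
  have := hEc true false
  have := hEc false true
  have := hEc false false
  linarith

open Classical in
/-- **Almost all even numbers are sums of two almost prime twins with prescribed parities.** -/
theorem result :
    (∀ k : ℕ, 1 ≤ k → ∃ c : ℝ, 0 < c ∧ ∃ A : ℕ, 1 ≤ A ∧ ∀ K : ℕ, A ≤ K → ∀ B : ℕ, ∃ X₀ y₀ : ℕ,
      ∀ X y : ℕ, X₀ ≤ X → y₀ ≤ y → y ^ K ≤ X → ∀ H H' : Fin k → ℤ, Admissible H → Admissible H' →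
        c * (X / Real.log X ^ k) ≤ (rough H y X).card ∧
        (∀ N : ℕ, N ≤ X → (1 / 2 : ℝ) ^ (K / A) * X ≤ N → Soluble H H' N →
          c * ((N : ℝ) / X) * (((rough H y X).card : ℝ) * (rough H' y X).card / X) ≤ (reps H H' N y).card) ∧
        ∀ a b : ℤ, |(a : ℝ)| ≤ X * Real.log X ^ B → |(b : ℝ)| ≤ X * Real.log X ^ B →
          (((Icc 1 X).filter (fun N : ℕ => Soluble H H' N ∧ ∃ s t : Bool,
            (1 / 2 : ℝ) ^ (K / A) * (reps H H' N y).card <
              |4 * ((pattern H H' N y a b s t).card : ℝ) - (reps H H' N y).card|)).card : ℝ) ≤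
            (1 / 2 : ℝ) ^ (K / A) * X) ∧
    (∃ c : ℝ, 0 < c ∧ ∃ A : ℕ, 1 ≤ A ∧ ∀ K : ℕ, A ≤ K → ∀ B : ℕ, ∃ X₀ y₀ : ℕ,
      ∀ X y : ℕ, X₀ ≤ X → y₀ ≤ y → y ^ K ≤ X →
        ∀ a b : ℤ, |(a : ℝ)| ≤ X * Real.log X ^ B → |(b : ℝ)| ≤ X * Real.log X ^ B →
          (((Icc 1 X).filter (fun N : ℕ => Even N ∧ ¬ ∃ σ τ : Bool,
            c * (N / Real.log X ^ 4) ≤ (reps (twin σ) (twin τ) N y).card ∧
            ∀ s t : Bool, |4 * ((pattern (twin σ) (twin τ) N y a b s t).card : ℝ) -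
                (reps (twin σ) (twin τ) N y).card| ≤
              (1 / 2 : ℝ) ^ (K / A) * (reps (twin σ) (twin τ) N y).card)).card : ℝ) ≤
            5 * ((1 / 2 : ℝ) ^ (K / A) * X)) :=
  ⟨general, twins⟩

end Pool.Agent.Results.MP_c6d112_nt.AlmostTwinsWithParities
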