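import Mathlib
import Pool.Agent.H251.MY.FinU
import Pool.Agent.H251.MY.Clus
import Pool.Agent.H251.MY.Fac
import Pool.Agent.H985.Cor.Base

/-!
# Sums of two almost twins over `F_q[X]`, `q` even: every sum, a true prime, prescribed parity

Dubner's problem over `F_q[X]`, `q` even: `H = p + p'` with `p`, `p + a`, `p'`, `p' + a` irreducible
of degree `n`, for all nonzero `a ≠ H` of degree less than `n` without congruence obstruction.  For
every `m` there are `B, C, r` such that for large `n`, *all* such `a`, `H`, every sign `σ` and each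
choice of one of the three polynomials `p + a`, `H - p`, `H - p + a`: at least `c q ^ n / n ^ C` monic
`f` of degree `n` have at least `m` primes `p` with `deg (p - f) ≤ B` for which `p + a`, `H - p`,
`H - p + a` are products of at most `r` primes of degree at least `n / (r + 1)`, the chosen one of
them a squarefree product of an odd number of primes if `σ = -1`, of an even number if `σ = 1`.

For the authors of the engine see `MP_8923e7_nt.MaynardTaoParity`.
-/

namespace Pool.Agent.Results.MP_c6d112_nt.EverySumInClusters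

open Polynomial

open Classical in
/-- The Möbius function of `K[X]`: `(-1) ^ k` if `F` is a nonzero constant times a product of `k`
distinct monic irreducible polynomials, and `0` for all other `F`. -/
noncomputable def moebius {K : Type} [Field K] (F : K[X]) : ℤ :=
  if Squarefree F then (-1) ^ Multiset.card (UniqueFactorizationMonoid.factors F) else 0

/-- `F` is a product of at most `r` irreducible polynomials (with multiplicity), each of degree at
least `n / (r + 1)`. -/
def IsAlmostPrime {K : Type} [Field K] (r n : ℕ) (F : K[X]) : Prop :=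
  F ≠ 0 ∧ Multiset.card (UniqueFactorizationMonoid.factors F) ≤ r ∧
    ∀ P : K[X], Irreducible P → P ∣ F → n ≤ (r + 1) * P.natDegree

/-- There is no congruence obstruction: for every irreducible polynomial `P` some `x` is such that
`P` divides none of `x`, `x + a`, `H - x`, `H - x + a`. -/
def Admissible {K : Type} [Field K] (a H : K[X]) : Prop :=
  ∀ P : K[X], Irreducible P →
    ∃ x : K[X], ¬ P ∣ x ∧ ¬ P ∣ x + a ∧ ¬ P ∣ H - x ∧ ¬ P ∣ H - x + a

/-- The primes `p` with `deg (p - f) ≤ B` such that `p + a`, `H - p`, `H - p + a` are almost primes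
and the `i`-th of these three has the value `σ` of the Möbius function. -/
def cluster {K : Type} [Field K] (B r n : ℕ) (a H : K[X]) (i : Fin 3) (σ : ℤ) (f : K[X]) :
    Set K[X] :=
  {p | (p - f).natDegree ≤ B ∧ Irreducible p ∧ IsAlmostPrime r n (p + a) ∧
    IsAlmostPrime r n (H - p) ∧ IsAlmostPrime r n (H - p + a) ∧
    moebius ((![p + a, H - p, H - p + a] : Fin 3 → K[X]) i) = σ}

/-- **Every sum of almost twins, with clusters of true primes and prescribed parity, `q` even.** -/
theorem result (K : Type) [Field K] [Fintype K] (hK : Even (Fintype.card K)) (m : ℕ) :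
    ∃ (B C r : ℕ) (c : ℝ) (N : ℕ), 0 < c ∧ ∀ n : ℕ, N ≤ n → ∀ a H : K[X], a ≠ 0 → H ≠ 0 → a ≠ H →
      a.natDegree < n → H.natDegree < n → Admissible a H →
      ∀ (i : Fin 3) (σ : ℤ), (σ = 1 ∨ σ = -1) →
      c * (Fintype.card K : ℝ) ^ n / (n : ℝ) ^ C ≤
        ({f : K[X] | f.Monic ∧ f.natDegree = n ∧ m ≤ (cluster B r n a H i σ f).ncard}.ncard : ℝ) := by
  classical
  have := Pool.Agent.H985.Cor.charTwo_of_even hK
  have hneg : ∀ x y : K[X], x - y = y + x := fun x y => by
    rw [CharTwo.sub_eq_add, add_comm]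
  obtain ⟨B, C, δ, c, n₀, hδ, hc, H1⟩ :=
    Pool.Agent.H251.MY.clus Pool.Agent.H251.MY.s_mayu K m 4
  obtain ⟨r, hr⟩ := exists_nat_ge (1 / δ)
  refine ⟨B, C, r, c, n₀ + B + 1, hc, fun n hn a H ha hH haH had hHd hadm i σ hσ => ?_⟩
  obtain ⟨T, hTdef⟩ : ∃ T : Finset K[X], T = {0, a, H, H + a} := ⟨_, rfl⟩
  have hT : ∀ t, t ∈ T ↔ t = 0 ∨ t = a ∨ t = H ∨ t = H + a := by
    intro t
    rw [hTdef]
    simp
  have hTd : ∀ t ∈ T, t.natDegree < n := by
    intro t ht
    rcases (hT t).1 ht with rfl | rfl | rfl | rfl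
    · rw [natDegree_zero]; omega
    · exact had
    · exact hHd
    · exact lt_of_le_of_lt (natDegree_add_le _ _) (max_lt hHd had)
  have hHa : H + a ≠ 0 := by
    intro h
    apply haH
    have := eq_neg_of_add_eq_zero_right h
    rw [this, CharTwo.neg_eq]
  obtain ⟨b, hb⟩ : ∃ b : K[X], b = (![a, H, H + a] : Fin 3 → K[X]) i := ⟨_, rfl⟩
  have hbT : b ∈ T := by
    rw [hT, hb]
    fin_cases i <;> simp
  have hb0 : b ≠ 0 := by
    rw [hb]
    fin_cases i
    · exact ha
    · exact hH
    · exact hHa
  have hbp : ∀ p : K[X], (![p + a, H - p, H - p + a] : Fin 3 → K[X]) i = p + b := by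
    intro p
    rw [hb]
    fin_cases i
    · rfl
    · exact hneg H p
    · show H - p + a = p + (H + a)
      rw [hneg, add_assoc]
  have h1 := H1 n (by omega) T (by rw [hTdef]; exact Finset.card_le_four) hTd
    ((hT 0).2 (Or.inl rfl)) (fun P hP => by
      obtain ⟨x, hx0, hx1, hx2, hx3⟩ := hadm P hP
      refine ⟨x, fun t ht => ?_⟩
      rcases (hT t).1 ht with rfl | rfl | rfl | rfl
      · rwa [add_zero]
      · exact hx1
      · rwa [hneg] at hx2
      · rwa [hneg, add_assoc] at hx3) b hbT hb0 σ hσ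
  refine h1.trans ?_
  have hfin : {f : K[X] | f.Monic ∧ f.natDegree = n ∧
      m ≤ (cluster B r n a H i σ f).ncard}.Finite := by
    refine (Pool.Agent.H694.Typ.Mn K n).finite_toSet.subset fun f hf => ?_
    rw [Finset.mem_coe, Pool.Agent.H694.Typ.mem_Mn]
    exact ⟨hf.1, hf.2.1⟩
  refine Nat.cast_le.2 ?_
  rw [← Set.ncard_coe_finset]
  refine Set.ncard_le_ncard (fun f hf => ?_) hfin
  rw [Finset.mem_coe, Finset.mem_filter, Pool.Agent.H694.Typ.mem_Mn] at hf
  obtain ⟨⟨hf1, hf2⟩, hf3⟩ := hf
  refine ⟨hf1, hf2, hf3.trans ?_⟩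
  have hfin2 : (cluster B r n a H i σ f).Finite := by
    have h2 : ((fun h : K[X] => f + h) '' {h : K[X] | h.degree < ((B + 1 : ℕ) : WithBot ℕ)}).Finite :=
      (Pool.Agent.H251.MY.PropQ.fin_deg (K := K) (B + 1)).image _
    refine h2.subset fun p hp => ⟨p - f, ?_, by simp⟩
    refine lt_of_le_of_lt degree_le_natDegree ?_
    have := hp.1
    exact_mod_cast Nat.lt_succ_of_le this
  refine Set.ncard_le_ncard_of_injOn (fun h => f + h) ?_
    (fun x _ y _ hxy => add_left_cancel hxy) hfin2
  rintro h ⟨h1, h2, h3, h4⟩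
  have hap : ∀ t ∈ T, IsAlmostPrime r n (f + h + t) := by
    intro t ht
    have hlt : h.natDegree < f.natDegree := by rw [hf2]; omega
    have hd1 : (f + h).natDegree = n := by
      rw [natDegree_add_eq_left_of_natDegree_lt hlt, hf2]
    have hd2 : (f + h + t).natDegree = n := by
      rw [natDegree_add_eq_left_of_natDegree_lt (by rw [hd1]; exact hTd t ht), hd1]
    have hne : f + h + t ≠ 0 := by
      intro h0
      rw [h0, natDegree_zero] at hd2
      omega
    have hP : ∀ P : K[X], Irreducible P → P ∣ f + h + t → n ≤ r * P.natDegree :=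
      fun P hP hd => Pool.Agent.H251.MY.rough_nat hδ hr (h4 t ht P hP hd)
    exact ⟨hne, Pool.Agent.H251.MY.fac_le (by omega) hne hd2 hP,
      fun P hP1 hP2 => (hP P hP1 hP2).trans (Nat.mul_le_mul_right _ (Nat.le_succ r))⟩
  refine ⟨?_, h2, hap a ((hT a).2 (by tauto)), ?_, ?_, ?_⟩
  · show (f + h - f).natDegree ≤ B
    rw [add_sub_cancel_left]
    exact h1
  · rw [hneg]
    exact hap H ((hT H).2 (by tauto))
  · rw [hneg, add_assoc]
    exact hap (H + a) ((hT (H + a)).2 (by tauto))
  · rw [hbp]
    exact h3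

end Pool.Agent.Results.MP_c6d112_nt.EverySumInClusters
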