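import Pool.Agent.H76.PB.TernP

/-!
# Sums of three primes which start prime tuples: a formula for every integer

Dubner's question asks for the sums of two primes which belong to prime pairs with the gap `2`. Here the gap `2` is
replaced by any gap, or any vector `h` of shifts, outside a small exceptional set, and two summands by three. For almost
all `h ∈ [1, X] ^ k`, up to an arbitrary power of the logarithm, and all coefficients `a i` up to a power of the
logarithm, consider the `k + 1` forms `n`, `a i * n + h i`. For any three of these systems of forms the number of the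
solutions of `n 0 + n 1 + n 2 = m` for which prescribed forms are primes (weighted with their logarithms) and prescribed
other forms have a prescribed sign of the Liouville function is for EVERY `m` the singular series of the system times
the number of all the triples times `2 ^ (-number of the signs)`, up to `X ^ 2 / (log X) ^ A`; the singular series is
bounded from below unless some prime is an obstruction. For `k = 1`, `a = 1` and the same even `h` three times these are
the sums of three primes `p` such that `p + h` is also a prime.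
-/

set_option autoImplicit false

open Finset

namespace Pool.Agent.Results.MP_c6d112_nt.SumsOfThree

/-- The Liouville function `λ(n) = (-1) ^ Ω(n)`. -/
def lam (n : ℕ) : ℤ := (-1) ^ ArithmeticFunction.cardFactors n

/-- `log n` if `n` is a prime, and `0` otherwise. -/
noncomputable def logPrime (n : ℕ) : ℝ := if n.Prime then Real.log n else 0

/-- The values at `n` of the `k + 1` forms: `n` (the form number `0`) and `a i * n + h i`. -/
def forms {k : ℕ} (a h : Fin k → ℕ) (n : ℕ) : Fin (k + 1) → ℕ := Fin.cons n (fun i => a i * n + h i)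

/-- The triples of numbers in `[1, X]` with the sum `m`. -/
def triples (X m : ℕ) : Finset (Fin 3 → ℕ) :=
  (Fintype.piFinset fun _ : Fin 3 => Icc 1 X).filter (fun n => n 0 + n 1 + n 2 = m)

/-- The number of the triples of residue classes mod `p` with the sum `m` mod `p` such that no form which belongs to
`P` is divisible by `p`. -/
def locCount {k : ℕ} (a h : Fin 3 → Fin k → ℕ) (P : Fin 3 → Finset (Fin (k + 1))) (m p : ℕ) : ℕ :=
  ((Fintype.piFinset fun _ : Fin 3 => range p).filter (fun n => (n 0 + n 1 + n 2) % p = m % p ∧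
    ∀ r, ∀ i ∈ P r, ¬ p ∣ forms (a r) (h r) (n r) i)).card

/-- The singular series: the product over the primes `p ≤ X` of the density `locCount / p ^ 2` of the good classes,
divided by `(1 - 1 / p)` to the number of the forms which belong to `P`. -/
noncomputable def singular {k : ℕ} (X : ℕ) (a h : Fin 3 → Fin k → ℕ) (P : Fin 3 → Finset (Fin (k + 1))) (m : ℕ) : ℝ :=
  ∏ p ∈ (Icc 1 X).filter Nat.Prime, ((locCount a h P m p : ℝ) / p ^ 2) / (1 - 1 / (p : ℝ)) ^ (∑ r, (P r).card)

open Classical in
/-- Let `k`, `A`, `K` be fixed and let `X` be large. There is a set `B` of at most `X ^ k / (log X) ^ A` vectors in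
`[1, X] ^ k` such that for any three vectors `h r ∈ [1, X] ^ k` outside `B` (equal ones are allowed), coefficients
`1 ≤ a r i ≤ (log X) ^ K` coprime to `h r i`, disjoint sets `P r`, `Q r` of forms, signs `ε r i` and EVERY `m`: the sum,
over the triples in `[1, X] ^ 3` with the sum `m` and with the sign `ε r i` of `λ` at the forms of `Q r`, of the product
of the logarithms of the forms of `P r`, if these are all primes, times `2` to the number of the signs, is the singular
series times the number of all the triples, up to `X ^ 2 / (log X) ^ A`. The singular series is at least `c > 0`, which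
depends only on `k`, `A`, `K`, unless some prime is an obstruction. -/
theorem main : ∀ k A K : ℕ, ∃ c : ℝ, 0 < c ∧ ∃ X₀ : ℕ, ∀ X : ℕ, X₀ ≤ X →
    ∃ B ⊆ Fintype.piFinset (fun _ : Fin k => Icc 1 X), (B.card : ℝ) ≤ (X : ℝ) ^ k / Real.log X ^ A ∧
      ∀ h : Fin 3 → Fin k → ℕ, (∀ r, h r ∈ Fintype.piFinset (fun _ : Fin k => Icc 1 X) ∧ h r ∉ B) →
        ∀ a : Fin 3 → Fin k → ℕ, (∀ r i, 1 ≤ a r i ∧ (a r i : ℝ) ≤ Real.log X ^ K ∧ (a r i).Coprime (h r i)) →
        ∀ P Q : Fin 3 → Finset (Fin (k + 1)), (∀ r, Disjoint (P r) (Q r)) →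
        ∀ ε : Fin 3 → Fin (k + 1) → ℤ, (∀ r i, ε r i = 1 ∨ ε r i = -1) → ∀ m : ℕ,
        |2 ^ (∑ r, (Q r).card) *
            ∑ n ∈ (triples X m).filter (fun n => ∀ r, ∀ i ∈ Q r, lam (forms (a r) (h r) (n r) i) = ε r i),
              ∏ r, ∏ i ∈ P r, logPrime (forms (a r) (h r) (n r) i) -
          singular X a h P m * (triples X m).card| ≤ (X : ℝ) ^ 2 / Real.log X ^ A ∧
        ((∀ p : ℕ, p.Prime → 0 < locCount a h P m p) → c ≤ singular X a h P m) :=
  Pool.Agent.H76.PB.ternP

/-- no prime is an obstruction for an odd `m` if `6` divides the gap -/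
lemma loc_pos {h m p : ℕ} (h6 : 6 ∣ h) (hm : Odd m) (hp : p.Prime) :
    0 < locCount (fun _ (_ : Fin 1) => 1) (fun _ (_ : Fin 1) => h) (fun _ => univ) m p := by
  classical
  have key : ∃ x y z : ℕ, x < p ∧ y < p ∧ z < p ∧ (x + y + z) % p = m % p ∧
      (¬ p ∣ x ∧ ¬ p ∣ 1 * x + h) ∧ (¬ p ∣ y ∧ ¬ p ∣ 1 * y + h) ∧ (¬ p ∣ z ∧ ¬ p ∣ 1 * z + h) := by
    obtain ⟨j, rfl⟩ := h6
    obtain ⟨i, rfl⟩ := hm
    rcases lt_or_ge p 5 with hp5 | hp5
    · have : p = 2 ∨ p = 3 := by
        interval_cases p
        · exact absurd hp (by decide)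
        · exact absurd hp (by decide)
        · exact Or.inl rfl
        · exact Or.inr rfl
        · exact absurd hp (by decide)
      rcases this with rfl | rfl
      · exact ⟨1, 1, 1, by omega, by omega, by omega, by omega, by omega, by omega, by omega⟩
      · have : (2 * i + 1) % 3 = 0 ∨ (2 * i + 1) % 3 = 1 ∨ (2 * i + 1) % 3 = 2 := by omega
        rcases this with h1 | h1 | h1
        · exact ⟨1, 1, 1, by omega, by omega, by omega, by omega, by omega, by omega, by omega⟩
        · exact ⟨1, 1, 2, by omega, by omega, by omega, by omega, by omega, by omega, by omega⟩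
        · exact ⟨1, 2, 2, by omega, by omega, by omega, by omega, by omega, by omega, by omega⟩
    · have : Fact p.Prime := ⟨hp⟩
      have ex : ∀ a b c d : ZMod p, ∃ y : ZMod p, y ≠ a ∧ y ≠ b ∧ y ≠ c ∧ y ≠ d := by
        intro a b c d
        have h1 : ({a, b, c, d} : Finset (ZMod p)).card < (univ : Finset (ZMod p)).card := by
          rw [card_univ, ZMod.card]
          exact lt_of_le_of_lt Finset.card_le_four (by omega)
        obtain ⟨y, -, hy⟩ := exists_mem_notMem_of_card_lt_card h1
        simp only [mem_insert, mem_singleton, not_or] at hy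
        exact ⟨y, hy⟩
      obtain ⟨x, hx1, hx2, -, -⟩ := ex 0 (-((6 * j : ℕ) : ZMod p)) 0 0
      obtain ⟨y, hy1, hy2, hy3, hy4⟩ := ex 0 (-((6 * j : ℕ) : ZMod p)) (((2 * i + 1 : ℕ) : ZMod p) - x)
        (((2 * i + 1 : ℕ) : ZMod p) - x + ((6 * j : ℕ) : ZMod p))
      have conv : ∀ w : ZMod p, w ≠ 0 → w ≠ -((6 * j : ℕ) : ZMod p) →
          ¬ p ∣ w.val ∧ ¬ p ∣ 1 * w.val + 6 * j := by
        intro w h1 h2
        refine ⟨fun h3 => h1 ?_, fun h3 => h2 ?_⟩
        · have h4 := (ZMod.natCast_eq_zero_iff w.val p).2 h3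
          rwa [ZMod.natCast_zmod_val] at h4
        · have h4 := (ZMod.natCast_eq_zero_iff (1 * w.val + 6 * j) p).2 h3
          rw [one_mul, Nat.cast_add, ZMod.natCast_zmod_val] at h4
          exact eq_neg_of_add_eq_zero_left h4
      refine ⟨x.val, y.val, (((2 * i + 1 : ℕ) : ZMod p) - x - y).val, ZMod.val_lt _, ZMod.val_lt _,
        ZMod.val_lt _, ?_, conv x hx1 hx2, conv y hy1 hy2, conv _ ?_ ?_⟩
      · have h5 : ((x.val + y.val + (((2 * i + 1 : ℕ) : ZMod p) - x - y).val : ℕ) : ZMod p) =
            ((2 * i + 1 : ℕ) : ZMod p) := by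
          rw [Nat.cast_add, Nat.cast_add, ZMod.natCast_zmod_val, ZMod.natCast_zmod_val,
            ZMod.natCast_zmod_val]
          ring
        exact (ZMod.natCast_eq_natCast_iff' _ _ _).1 h5
      · intro h6
        apply hy3
        rw [sub_eq_zero] at h6
        exact h6.symm
      · intro h6
        apply hy4
        have h7 : y = ((2 * i + 1 : ℕ) : ZMod p) - x - (((2 * i + 1 : ℕ) : ZMod p) - x - y) := by ring
        rw [h7, h6]
        ring
  obtain ⟨x, y, z, hx, hy, hz, hs, hx', hy', hz'⟩ := key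
  refine card_pos.2 ⟨![x, y, z], ?_⟩
  rw [mem_filter, Fintype.mem_piFinset]
  refine ⟨?_, hs, ?_⟩
  · intro r
    rw [mem_range]
    fin_cases r
    · exact hx
    · exact hy
    · exact hz
  · intro r i _
    fin_cases r <;> fin_cases i
    · exact hx'.1
    · exact hx'.2
    · exact hy'.1
    · exact hy'.2
    · exact hz'.1
    · exact hz'.2

lemma card_triples {X m : ℕ} (hm : m ≤ X) (h12 : 12 ≤ m) : (m : ℝ) ^ 2 / 16 ≤ ((triples X m).card : ℝ) := by
  classical
  have h1 : (Icc 1 (m / 3) ×ˢ Icc 1 (m / 3)).card ≤ (triples X m).card := by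
    refine card_le_card_of_injOn (fun q => ![q.1, q.2, m - q.1 - q.2]) ?_ ?_
    · intro q hq
      rw [mem_coe, mem_product, mem_Icc, mem_Icc] at hq
      rw [mem_coe, triples, mem_filter, Fintype.mem_piFinset]
      refine ⟨?_, ?_⟩
      · intro r
        rw [mem_Icc]
        fin_cases r
        · show 1 ≤ q.1 ∧ q.1 ≤ X
          omega
        · show 1 ≤ q.2 ∧ q.2 ≤ X
          omega
        · show 1 ≤ m - q.1 - q.2 ∧ m - q.1 - q.2 ≤ X
          omega
      · show q.1 + q.2 + (m - q.1 - q.2) = m
        omega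
    · intro q _ q' _ hqq
      have h2 := congrFun hqq 0
      have h3 := congrFun hqq 1
      exact Prod.ext h2 h3
  rw [card_product, Nat.card_Icc, Nat.add_sub_cancel] at h1
  have h2 : (m : ℝ) ≤ 4 * ((m / 3 : ℕ) : ℝ) := by exact_mod_cast (by omega : m ≤ 4 * (m / 3))
  have h3 : ((m / 3 : ℕ) : ℝ) * ((m / 3 : ℕ) : ℝ) ≤ ((triples X m).card : ℝ) := by exact_mod_cast h1
  have h4 : (0 : ℝ) ≤ m := Nat.cast_nonneg m
  nlinarith

lemma logPrime_nonneg (n : ℕ) : 0 ≤ logPrime n := by
  unfold logPrime
  split_ifs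
  · exact Real.log_natCast_nonneg n
  · exact le_rfl

open Classical in
lemma gapSix (A : ℕ) : ∃ c : ℝ, 0 < c ∧ ∃ X₀ : ℕ, ∀ X : ℕ, X₀ ≤ X →
    ∃ B ⊆ Icc 1 X, (B.card : ℝ) ≤ X / Real.log X ^ A ∧
      ∀ h ∈ Icc 1 X, h ∉ B → 6 ∣ h → ∀ m : ℕ, Odd m → X / Real.log X ≤ (m : ℝ) → m ≤ X →
        c * (m : ℝ) ^ 2 / Real.log X ^ 6 ≤
          (((triples X m).filter (fun n => ∀ r, (n r).Prime ∧ (n r + h).Prime)).card : ℝ) := by
  obtain ⟨c, hc, X₁, hX₁⟩ := main 1 (A + 3) 0
  have hlim : Filter.Tendsto (fun X : ℕ => Real.log (X : ℝ)) Filter.atTop Filter.atTop :=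
    Real.tendsto_log_atTop.comp tendsto_natCast_atTop_atTop
  have h12 : ∀ᶠ X : ℕ in Filter.atTop, 12 * Real.log (X : ℝ) ≤ X := by
    have h3 := Real.isLittleO_log_id_atTop.bound (by norm_num : (0 : ℝ) < 1 / 12)
    have h4 := (tendsto_natCast_atTop_atTop (R := ℝ)).eventually h3
    filter_upwards [h4, Filter.eventually_ge_atTop 1] with x hx hx1
    rw [Real.norm_of_nonneg (Real.log_natCast_nonneg x)] at hx
    have : ‖id (x : ℝ)‖ = x := by rw [id, Real.norm_of_nonneg (Nat.cast_nonneg x)]
    rw [this] at hx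
    linarith
  obtain ⟨X₂, hX₂⟩ := (((hlim.eventually_ge_atTop 1).and (hlim.eventually_ge_atTop (32 / c))).and
    (h12.and (Filter.eventually_ge_atTop 2))).exists_forall_of_atTop
  refine ⟨c / 2048, by positivity, max X₁ X₂, fun X hX => ?_⟩
  obtain ⟨B0, hB0, hBc, hmain⟩ := hX₁ X ((le_max_left _ _).trans hX)
  obtain ⟨⟨hL1, hL2⟩, hX12, hX2⟩ := hX₂ X ((le_max_right _ _).trans hX)
  set L := Real.log (X : ℝ) with hL
  have hL0 : 0 < L := by linarith
  have hX0 : (0 : ℝ) < X := by exact_mod_cast (by omega : 0 < X)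
  refine ⟨B0.image (fun v => v 0), ?_, ?_, ?_⟩
  · intro x hx
    obtain ⟨v, hv, rfl⟩ := mem_image.1 hx
    exact Fintype.mem_piFinset.1 (hB0 hv) 0
  · calc ((B0.image (fun v => v 0)).card : ℝ) ≤ B0.card := by exact_mod_cast card_image_le
      _ ≤ (X : ℝ) ^ 1 / L ^ (A + 3) := hBc
      _ ≤ X / L ^ A := by
        rw [pow_one]
        exact div_le_div_of_nonneg_left hX0.le (by positivity) (pow_le_pow_right₀ hL1 (by omega))
  · intro h hh hhB h6 m hm hm1 hm2
    have hS := hmain (fun _ _ => h) (fun _ => ⟨Fintype.mem_piFinset.2 fun _ => hh,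
      fun hv => hhB (mem_image.2 ⟨_, hv, rfl⟩)⟩) (fun _ _ => 1)
      (fun _ _ => ⟨le_rfl, by simp, Nat.coprime_one_left _⟩) (fun _ => univ) (fun _ => ∅)
      (fun _ => disjoint_empty_right _) (fun _ _ => 1) (fun _ _ => Or.inl rfl) m
    obtain ⟨e1, e2⟩ := hS
    have hSc := e2 (fun p hp => loc_pos h6 hm hp)
    have e3 := (abs_le.1 e1).1
    simp only [card_empty, sum_const_zero, pow_zero, one_mul] at e3
    have hm12 : 12 ≤ m := by
      have h1 : (12 : ℝ) ≤ X / L := by rw [le_div_iff₀ hL0]; exact hX12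
      exact_mod_cast h1.trans hm1
    have hT := card_triples hm2 hm12
    have hm0 : (0 : ℝ) < m := by exact_mod_cast (by omega : 0 < m)
    -- the error term
    have hE : (X : ℝ) ^ 2 / L ^ (A + 3) ≤ (m : ℝ) ^ 2 * (c / 32) := by
      have h1 : (X : ℝ) ≤ m * L := by rwa [div_le_iff₀ hL0] at hm1
      have h2 : (X : ℝ) ^ 2 ≤ (m * L) ^ 2 := pow_le_pow_left₀ hX0.le h1 2
      have h3 : L ^ 3 ≤ L ^ (A + 3) := pow_le_pow_right₀ hL1 (by omega)
      have h4 : 1 / L ≤ c / 32 := by
        rw [div_le_iff₀ hL0]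
        have := (div_le_iff₀ hc).1 hL2
        linarith
      calc (X : ℝ) ^ 2 / L ^ (A + 3) ≤ (m * L) ^ 2 / L ^ 3 := by
            exact div_le_div₀ (by positivity) h2 (by positivity) h3
        _ = (m : ℝ) ^ 2 * (1 / L) := by field_simp
        _ ≤ (m : ℝ) ^ 2 * (c / 32) := mul_le_mul_of_nonneg_left h4 (by positivity)
    -- the sum is at most the number of the good triples times the largest weight
    have hlog2 : Real.log (2 * X : ℝ) ≤ 2 * L := by
      rw [Real.log_mul (by norm_num) hX0.ne']
      have : Real.log 2 ≤ L := Real.log_le_log (by norm_num) (by exact_mod_cast hX2)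
      linarith
    have hw : ∀ v : ℕ, v ≤ 2 * X → logPrime v ≤ 2 * L := by
      intro v hv
      unfold logPrime
      split_ifs with hp
      · refine le_trans ?_ hlog2
        exact Real.log_le_log (by exact_mod_cast hp.pos) (by exact_mod_cast hv)
      · positivity
    have hU : ∀ n ∈ triples X m, ∏ r, ∏ i ∈ (univ : Finset (Fin (1 + 1))),
        logPrime (forms (fun _ : Fin 1 => 1) (fun _ : Fin 1 => h) (n r) i) ≤
          if (∀ r, (n r).Prime ∧ (n r + h).Prime) then (2 * L) ^ 6 else 0 := by
      intro n hn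
      have hn1 : ∀ r, n r ≤ X := fun r =>
        (mem_Icc.1 (Fintype.mem_piFinset.1 (mem_filter.1 hn).1 r)).2
      have hh1 : h ≤ X := (mem_Icc.1 hh).2
      have e4 : ∀ r, ∏ i ∈ (univ : Finset (Fin (1 + 1))),
          logPrime (forms (fun _ : Fin 1 => 1) (fun _ : Fin 1 => h) (n r) i) =
            logPrime (n r) * logPrime (n r + h) := by
        intro r
        rw [Fin.prod_univ_two]
        show logPrime (n r) * logPrime (1 * n r + h) = _
        rw [one_mul]
      simp only [e4]
      split_ifs with g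
      · calc ∏ r, (logPrime (n r) * logPrime (n r + h)) ≤ ∏ _r : Fin 3, ((2 * L) * (2 * L)) := by
              refine prod_le_prod (fun r _ => mul_nonneg (logPrime_nonneg _) (logPrime_nonneg _))
                fun r _ => ?_
              exact mul_le_mul (hw _ (by have := hn1 r; omega)) (hw _ (by have := hn1 r; omega))
                (logPrime_nonneg _) (by positivity)
          _ = (2 * L) ^ 6 := by
            rw [prod_const, card_univ, Fintype.card_fin]
            ring
      · refine le_of_eq ?_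
        push Not at g
        obtain ⟨r, hr⟩ := g
        refine prod_eq_zero (mem_univ r) ?_
        by_cases h1 : (n r).Prime
        · have h2 := hr h1
          rw [mul_eq_zero]
          right
          unfold logPrime
          rw [if_neg h2]
        · rw [mul_eq_zero]
          left
          unfold logPrime
          rw [if_neg h1]
    have hsum : ∑ n ∈ (triples X m).filter (fun n => ∀ r, ∀ i ∈ (∅ : Finset (Fin (1 + 1))),
        lam (forms (fun _ : Fin 1 => 1) (fun _ : Fin 1 => h) (n r) i) = 1),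
          ∏ r, ∏ i ∈ (univ : Finset (Fin (1 + 1))),
            logPrime (forms (fun _ : Fin 1 => 1) (fun _ : Fin 1 => h) (n r) i) ≤
        (((triples X m).filter (fun n => ∀ r, (n r).Prime ∧ (n r + h).Prime)).card : ℝ) *
          (2 * L) ^ 6 := by
      refine (sum_le_sum_of_subset_of_nonneg (filter_subset _ _) fun n _ _ =>
        prod_nonneg fun r _ => prod_nonneg fun i _ => logPrime_nonneg _).trans ?_
      refine (sum_le_sum hU).trans (le_of_eq ?_)
      rw [← sum_filter, sum_const, nsmul_eq_mul]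
    have hST : c * ((m : ℝ) ^ 2 / 16) ≤ singular X (fun _ (_ : Fin 1) => 1) (fun _ (_ : Fin 1) => h)
        (fun _ => univ) m * ((triples X m).card : ℝ) :=
      mul_le_mul hSc hT (by positivity) (hc.le.trans hSc)
    have hfin : c * (m : ℝ) ^ 2 / 32 ≤
        (((triples X m).filter (fun n => ∀ r, (n r).Prime ∧ (n r + h).Prime)).card : ℝ) *
          (2 * L) ^ 6 := by
      refine le_trans ?_ hsum
      linarith
    rw [div_le_iff₀ (by positivity)]
    have e5 : (2 * L) ^ 6 = 64 * L ^ 6 := by ring
    rw [e5] at hfin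
    linarith

open Classical in
/-- (1) Let `k`, `A`, `K` be fixed and let `X` be large. There is a set `B` of at most `X ^ k / (log X) ^ A` vectors in
`[1, X] ^ k` such that for any three vectors `h r ∈ [1, X] ^ k` outside `B` (equal ones are allowed), coefficients
`1 ≤ a r i ≤ (log X) ^ K` coprime to `h r i`, disjoint sets `P r`, `Q r` of forms, signs `ε r i` and EVERY `m`: the sum,
over the triples in `[1, X] ^ 3` with the sum `m` and with the sign `ε r i` of `λ` at the forms of `Q r`, of the product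
of the logarithms of the forms of `P r`, if these are all primes, times `2` to the number of the signs, is the singular
series times the number of all the triples, up to `X ^ 2 / (log X) ^ A`. The singular series is at least `c > 0`, which
depends only on `k`, `A`, `K`, unless some prime is an obstruction.
(2) For every `A` there is `c > 0` such that for all large `X` and all `h ≤ X` divisible by `6`, outside a set of at most
`X / (log X) ^ A` numbers: every odd `m` in `[X / log X, X]` is the sum of three primes `p` such that `p + h` is also a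
prime, for at least `c m ^ 2 / (log X) ^ 6` triples of such primes. -/
theorem result :
    (∀ k A K : ℕ, ∃ c : ℝ, 0 < c ∧ ∃ X₀ : ℕ, ∀ X : ℕ, X₀ ≤ X →
      ∃ B ⊆ Fintype.piFinset (fun _ : Fin k => Icc 1 X), (B.card : ℝ) ≤ (X : ℝ) ^ k / Real.log X ^ A ∧
        ∀ h : Fin 3 → Fin k → ℕ, (∀ r, h r ∈ Fintype.piFinset (fun _ : Fin k => Icc 1 X) ∧ h r ∉ B) →
          ∀ a : Fin 3 → Fin k → ℕ, (∀ r i, 1 ≤ a r i ∧ (a r i : ℝ) ≤ Real.log X ^ K ∧ (a r i).Coprime (h r i)) →
          ∀ P Q : Fin 3 → Finset (Fin (k + 1)), (∀ r, Disjoint (P r) (Q r)) →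
          ∀ ε : Fin 3 → Fin (k + 1) → ℤ, (∀ r i, ε r i = 1 ∨ ε r i = -1) → ∀ m : ℕ,
          |2 ^ (∑ r, (Q r).card) *
              ∑ n ∈ (triples X m).filter (fun n => ∀ r, ∀ i ∈ Q r, lam (forms (a r) (h r) (n r) i) = ε r i),
                ∏ r, ∏ i ∈ P r, logPrime (forms (a r) (h r) (n r) i) -
            singular X a h P m * (triples X m).card| ≤ (X : ℝ) ^ 2 / Real.log X ^ A ∧
          ((∀ p : ℕ, p.Prime → 0 < locCount a h P m p) → c ≤ singular X a h P m)) ∧
    (∀ A : ℕ, ∃ c : ℝ, 0 < c ∧ ∃ X₀ : ℕ, ∀ X : ℕ, X₀ ≤ X →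
      ∃ B ⊆ Icc 1 X, (B.card : ℝ) ≤ X / Real.log X ^ A ∧
        ∀ h ∈ Icc 1 X, h ∉ B → 6 ∣ h → ∀ m : ℕ, Odd m → X / Real.log X ≤ (m : ℝ) → m ≤ X →
          c * (m : ℝ) ^ 2 / Real.log X ^ 6 ≤
            (((triples X m).filter (fun n => ∀ r, (n r).Prime ∧ (n r + h).Prime)).card : ℝ)) :=
  ⟨main, gapSix⟩

end Pool.Agent.Results.MP_c6d112_nt.SumsOfThree
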